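import Pool.Agent.Helper30.SY.St

/-!
# MP_2d701a_co, project SY: module RND (the rounding theorem, assembly)
-/

set_option autoImplicit false

namespace Pool.Agent.Helper73.SY

open Finset Pool.Agent.Helper30.SY

private theorem ifill_mono {n : ℕ} {s : Fin n → Fin n → ℤ} {K K' : ℝ} (h : IFill s K)
    (hK : K ≤ K') : IFill s K' := by
  obtain ⟨Y, h1, h2, h3⟩ := h
  exact ⟨Y, h1, h2, h3.trans hK⟩

/-- **RND.** -/
theorem hRND : StRND := by
  intro hS hN hC L ε hL hε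
  have hθ : 0 < min (1 / 12 : ℝ) (ε / 2) := lt_min (by norm_num) (by linarith)
  have hθ1 : min (1 / 12 : ℝ) (ε / 2) ≤ 1 / 12 := min_le_left _ _
  have hθ2 : min (1 / 12 : ℝ) (ε / 2) ≤ ε / 2 := min_le_right _ _
  obtain ⟨n0, hn0⟩ := hN (L + 1) (min (1 / 12 : ℝ) (ε / 2)) (ε / 8) (by linarith) hθ
    (by linarith) (by linarith)
  refine ⟨max n0 1, fun n hn s X hs hX => ?_⟩
  have hn1 : n0 ≤ n := (le_max_left _ _).trans hn
  have hn2 : 1 ≤ n := (le_max_right _ _).trans hn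
  obtain ⟨X', hX', hsum⟩ := hS n s X L _ hn2 hθ hθ1 hX
  obtain ⟨A, B, C, P, hAP⟩ := hn0 n hn1 s X' hs hX'
  refine ifill_mono (hC n s X' (ε / 8) A B C P (by linarith) hs hAP) ?_
  have hsq : (0 : ℝ) ≤ (n : ℝ) ^ 2 := by positivity
  have h1 : min (1 / 12 : ℝ) (ε / 2) * (n : ℝ) ^ 2 ≤ ε / 2 * (n : ℝ) ^ 2 :=
    mul_le_mul_of_nonneg_right hθ2 hsq
  linarith

end Pool.Agent.Helper73.SY
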